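import Pool.Agent.Helper87S.Complete

set_option autoImplicit false

/-!
# MP_20b97f_co: weightings from connected spanning even subgraphs; complete graphs

If `Y` is a connected spanning even subgraph and `D` is any set of edges outside `Y`, there is an
even subgraph `A` which contains of the edges outside `Y` exactly those of `D`; the two even subgraphs
`A` and `A + Y` cover the edges of `Y` once, those of `D` twice and the others not at all. With
several `Y` this gives circuit covers for all weightings of the right parity up to the bound of the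
cone, weight two included: for complete graphs and for all graphs with a Hamilton decomposition or a
Hamilton double cover.
-/

namespace Pool.Agent.Results.MP_20b97f_co.ConnectedEvenSubgraphs

open Pool.Agent.H126R2.CDC (MGraph)

variable {V E : Type} [Fintype V] [DecidableEq V] [Fintype E] [DecidableEq E]

/-- `(G, p)` has a circuit cover: a finite family (multiset) of circuits such that every edge `e`
lies in exactly `p e` members. -/
def Cover (G : MGraph V E) (p : E → ℕ) : Prop :=
  ∃ F : Multiset (Finset E), (∀ C ∈ F, G.IsCircuit C) ∧ ∀ e, F.countP (fun C => e ∈ C) = p e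

/-- The edges of `T` connect all vertices: every nonempty proper set of vertices is left by an edge
of `T`. -/
def Connects (G : MGraph V E) (T : Finset E) : Prop :=
  ∀ B : Finset V, B.Nonempty → B ≠ Finset.univ →
    ∃ e ∈ T, (∃ x ∈ G.ends e, x ∈ B) ∧ ∃ x ∈ G.ends e, x ∉ B

/-- `Y` is a connected spanning even subgraph (for instance a Hamilton cycle): it connects all
vertices, and all its degrees are even. -/
def ConnectedEven (G : MGraph V E) (Y : Finset E) : Prop :=
  Connects G Y ∧ ∀ v, Even (G.deg Y v)

/-- `G` is the complete graph on its vertex set: no loops, exactly one edge between any two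
vertices. -/
def IsComplete (G : MGraph V E) : Prop :=
  Function.Injective G.ends ∧ (∀ e x, G.ends e ≠ s(x, x)) ∧
    ∀ x y, x ≠ y → ∃ e, G.ends e = s(x, y)

lemma con_of {G : MGraph V E} {T : Finset E} (h : Connects G T) :
    Pool.Agent.Helper87S.Con G T := by
  intro B hB hB'
  obtain ⟨e, he, h1⟩ := h B hB hB'
  refine Finset.card_pos.2 ⟨e, ?_⟩
  rw [Pool.Agent.TH399.CC.bdry, Finset.mem_filter]
  exact ⟨he, h1⟩

/-- Let `G` be a finite graph and `p` a weighting of its edges by natural numbers.

1. Let `Y_1, ..., Y_N` be connected spanning even subgraphs and let `h(e)` be the number of the `Y_j`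
   containing `e`. If `p(e)` has the parity of `h(e)` and `h(e) ≤ p(e) ≤ 2 N - h(e)` for every edge
   `e`, then `(G, p)` has a circuit cover.
2. If every edge is in exactly `c` of the `Y_j`, then `(G, p)` has a circuit cover whenever, for some
   `k`, all `p(e)` have the parity of `c k` and `c k ≤ p(e) ≤ (2 N - c) k`.
3. If `G` is the complete graph with `n ≥ 3` vertices, then `(G, p)` has a circuit cover whenever `p`
   is even and `2 k ≤ p(e) ≤ 2 (n - 2) k` for all edges `e`.
4. If `G` is the complete graph with `n ≥ 3` vertices, `n` odd, then `(G, p)` has a circuit cover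
   whenever all `p(e)` have the parity of `k` and `k ≤ p(e) ≤ (n - 2) k`.
5. If `G` has `r ≥ 2` pairwise edge-disjoint connected spanning subgraphs, then `(G, p)` has a circuit
   cover whenever `p` is even and `2 k ≤ p(e) ≤ 2 (r - 1) k` for all edges `e`. -/
theorem result (V E : Type) [Fintype V] [DecidableEq V] [Fintype E] [DecidableEq E]
    (G : MGraph V E) (p : E → ℕ) :
    (∀ (N : ℕ) (Y : Fin N → Finset E), (∀ j, ConnectedEven G (Y j)) →
      (∀ e, p e % 2 = (Finset.univ.filter (fun j => e ∈ Y j)).card % 2) →
      (∀ e, (Finset.univ.filter (fun j => e ∈ Y j)).card ≤ p e ∧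
        p e + (Finset.univ.filter (fun j => e ∈ Y j)).card ≤ 2 * N) → Cover G p) ∧
    (∀ (N c k : ℕ) (Y : Fin N → Finset E), (∀ j, ConnectedEven G (Y j)) →
      (∀ e, (Finset.univ.filter (fun j => e ∈ Y j)).card = c) →
      (∀ e, p e % 2 = (c * k) % 2) → (∀ e, c * k ≤ p e ∧ p e ≤ (2 * N - c) * k) → Cover G p) ∧
    (∀ n k : ℕ, IsComplete G → Fintype.card V = n → 3 ≤ n → (∀ e, Even (p e)) →
      (∀ e, 2 * k ≤ p e ∧ p e ≤ 2 * (n - 2) * k) → Cover G p) ∧
    (∀ n k : ℕ, IsComplete G → Fintype.card V = n → 3 ≤ n → n % 2 = 1 →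
      (∀ e, p e % 2 = k % 2) → (∀ e, k ≤ p e ∧ p e ≤ (n - 2) * k) → Cover G p) ∧
    (∀ (r k : ℕ) (T : Fin r → Finset E), 2 ≤ r → (∀ i, Connects G (T i)) →
      (∀ i j, i ≠ j → Disjoint (T i) (T j)) → (∀ e, Even (p e)) →
      (∀ e, 2 * k ≤ p e ∧ p e ≤ 2 * (r - 1) * k) → Cover G p) := by
  refine ⟨?_, ?_, ?_, ?_, ?_⟩
  · intro N Y hY hp h
    refine Pool.Agent.Helper87S.conn_cover G Y (fun j => (hY j).2) (fun j => con_of (hY j).1) p hp
      (fun e => (h e).1) (fun e => ?_)
    rw [Fintype.card_fin]
    exact (h e).2
  · intro N c k Y hY hc hp h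
    refine Pool.Agent.Helper87S.copies_cover G Y (fun j => ⟨(hY j).2, con_of (hY j).1⟩) k p
      (fun e => by rw [hc e]; exact hp e) (fun e => by rw [hc e]; exact (h e).1) (fun e => ?_)
    rw [hc e, Fintype.card_fin]
    have h1 : c ≤ N := by
      rw [← hc e]
      exact (Finset.card_le_univ _).trans (le_of_eq (Fintype.card_fin N))
    have h2 := (h e).2
    obtain ⟨d, rfl⟩ := Nat.exists_eq_add_of_le h1
    have h3 : 2 * ((c + d) * k) = (2 * (c + d) - c) * k + c * k := by
      rw [show 2 * (c + d) - c = c + 2 * d by omega]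
      ring
    rw [h3]
    omega
  · intro n k hG hn hn3 hp h
    exact Pool.Agent.Helper87S.complete_even G hG n hn hn3 k p hp (fun e => (h e).1)
      (fun e => (h e).2)
  · intro n k hG hn hn3 hodd hp h
    exact Pool.Agent.Helper87S.complete_odd G hG n hn hn3 hodd k p hp (fun e => (h e).1)
      (fun e => (h e).2)
  · intro r k T hr hT hd hp h
    exact Pool.Agent.Helper87S.disjoint_cover G r hr T (fun i => con_of (hT i)) hd k p hp
      (fun e => (h e).1) (fun e => (h e).2)

end Pool.Agent.Results.MP_20b97f_co.ConnectedEvenSubgraphs
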