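import Pool.Agent.Helper93.WF.Main

/-!
# Circuit covers deep in the cone, with a depth that does not depend on the weights

Let `G` be a finite graph with `N` edges and `p` a weighting of its edges by natural numbers (even or not)
in the lattice of the circuits, and let `L` be a real number such that `p - L` (the number `L`
subtracted from every value) lies in the cone of the circuits.

* If `L ≥ 16100 √N` then `(G, p)` has a circuit cover. There is no bound for the weights, and no
  logarithm.
* If `p ≤ M` and `L ≥ 16 √(min(M, N) log(2N)) + 46` then `(G, p)` has a circuit cover. (The starting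
  result `DeepInCone` has `L ≥ 60 √(M log(2N))`, which grows with the weights.)
* If all weightings of `G` by even numbers (zero allowed) between `0` and `2N - 2` which lie in the
  cone have circuit covers, then all weightings of `G` by even numbers in the cone have circuit covers.
  So for each graph the question is a finite one, and by the first part only weightings of bounded
  depth `16100 √N` matter.

Proof. By Caratheodory's theorem `p - L` is a combination of at most `N` circuits; the integral
parts of the coefficients are taken out. The fractional parts are rounded to `0` or `1` with an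
error of at most `1950 √N` at every edge (six standard deviations, together with the passage from
signs to linear discrepancy), or by a random choice. The difference of `p` and the integral
combination so obtained is in the lattice, and its values are between `L - D` and `L + D`, `D` the
error; so they differ by a factor of at most `9 / 7` if `L ≥ 8 D + 46`, and the construction of the
starting result `NineSevenths` gives a circuit cover of the difference.
-/

set_option autoImplicit false

namespace Pool.Agent.Results.MP_20b97f_co.DepthWithoutWeights

open Pool.Agent.H126R2.CDC (MGraph)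

/-- `x` is a nonnegative real combination of circuits -/
def InCone {V E : Type} [Fintype V] [DecidableEq V] [Fintype E] [DecidableEq E]
    (G : MGraph V E) (x : E → ℝ) : Prop :=
  ∃ w : Finset E → ℝ, (∀ C, 0 ≤ w C) ∧ (∀ C, ¬ G.IsCircuit C → w C = 0) ∧
    ∀ e, x e = ∑ C : Finset E, w C * (if e ∈ C then 1 else 0)

/-- `p` is an integral combination of circuits -/
def InLattice {V E : Type} [Fintype V] [DecidableEq V] [Fintype E] [DecidableEq E]
    (G : MGraph V E) (p : E → ℕ) : Prop :=
  (fun e => (p e : ℤ)) ∈ AddSubgroup.closure
    {x : E → ℤ | ∃ C, G.IsCircuit C ∧ x = fun e => if e ∈ C then 1 else 0}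

/-- `(G, p)` has a circuit cover: a multiset of circuits such that every edge `e` is in exactly
`p e` of its members -/
def HasCover {V E : Type} [Fintype V] [DecidableEq V] [Fintype E] [DecidableEq E]
    (G : MGraph V E) (p : E → ℕ) : Prop :=
  ∃ F : Multiset (Finset E), (∀ C ∈ F, G.IsCircuit C) ∧
    ∀ e, F.countP (fun C => e ∈ C) = p e

/-- Circuit covers of weightings deep in the cone, with a depth independent of the weights, and the
reduction to bounded weights. -/
theorem result (V E : Type) [Fintype V] [DecidableEq V] [Fintype E] [DecidableEq E]
    (G : MGraph V E) :
    (∀ (p : E → ℕ) (L : ℝ), InLattice G p → 16100 * √(Fintype.card E) ≤ L →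
      InCone G (fun e => (p e : ℝ) - L) → HasCover G p) ∧
    (∀ (p : E → ℕ) (L : ℝ) (M : ℕ), InLattice G p → (∀ e, p e ≤ M) →
      16 * √((min M (Fintype.card E) : ℕ) * Real.log (2 * Fintype.card E)) + 46 ≤ L →
      InCone G (fun e => (p e : ℝ) - L) → HasCover G p) ∧
    ((∀ q : E → ℕ, (∀ e, Even (q e)) → (∀ e, q e ≤ 2 * Fintype.card E - 2) →
        InCone G (fun e => (q e : ℝ)) → HasCover G q) →
      ∀ p : E → ℕ, (∀ e, Even (p e)) → InCone G (fun e => (p e : ℝ)) → HasCover G p) := by
  refine ⟨fun p L hlat hL hc => Pool.Agent.Helper93.WF.cover_spencer G p hlat L hL hc,
    fun p L M hlat hM hL hc => Pool.Agent.Helper93.WF.cover_log G p hlat L M hM hL hc,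
    fun h p hev hp => Pool.Agent.Helper93.WF.reduce G (fun q hq1 hq2 hq3 => h q hq1 (fun e => ?_) hq3)
      p hev hp⟩
  have := hq2 e
  omega

end Pool.Agent.Results.MP_20b97f_co.DepthWithoutWeights
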