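import Pool.Agent.H91S.Fin7

set_option autoImplicit false

/-!
# MP_20b97f_co: seven removable colours and good ranges of ratio `4 / 3`

The edges of every 3-edge-connected graph can be coloured with seven colours such that the deletion
of any one colour leaves a 2-edge-connected graph (ten colours: DeVos, Johnson and Seymour; eight: a
starting file of another problem). Consequently all integers from `12 k` to `16 k + 1` form a good
range for `k ≥ 17` and for odd `k ≥ 9` (ratio `4 / 3`; the ratio in the starting results is `9 / 7`,
with an additive loss), the integers `n` with `k ≤ n` and `3 n + 40 ≤ 4 k` form a good range for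
every `k`, and for even weights the ratio `7 / 6` is good without any lower bound (starting result:
`8 / 7`).

Proof. It suffices to treat cubic graphs. A *good* colouring of a cubic 3-edge-connected graph with
root `r` gives one of four colours or no colour to every edge, such that every one of the four
colours is removable, the coloured edges which are not at `r` connect the other vertices, and the
edges at `r` are coloured. The uncoloured edges then have a connected complement, and are split into
three removable classes by the starting library. Good colourings are constructed by induction: one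
glues along nontrivial 3-edge-cuts, and in a cyclically 4-edge-connected graph one deletes an edge
`uv` next to an edge `e = ru` at the root and suppresses `u` and `v`. When `u` and `v` are inserted
again, the edge `rs` subdivided by `u` keeps its colour on `us` and `ru` gets a colour `β` such that
every cut which separates `s` from `r` and is not local has two edges `≠ rs` whose colour is not
`β`; the edge subdivided by `v` keeps its colour on one half, the other half loses it, and `uv` gets
a fourth colour. After the step the edge `ru` has the same property with the colour of `us` instead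
of `β`, so the induction can go on.
-/

namespace Pool.Agent.Results.MP_20b97f_co.SevenColours

open Pool.Agent.H126R2.CDC (MGraph)

variable {V E : Type} [Fintype V] [DecidableEq V] [Fintype E] [DecidableEq E]

/-- `(G, p)` has a circuit cover: a finite family (multiset) of circuits such that every edge `e`
lies in exactly `p e` members. -/
def Cover (G : MGraph V E) (p : E → ℕ) : Prop :=
  ∃ F : Multiset (Finset E), (∀ C ∈ F, G.IsCircuit C) ∧ ∀ e, F.countP (fun C => e ∈ C) = p e

/-- `p` is an integer combination of circuits. -/
def InLattice (G : MGraph V E) (p : E → ℕ) : Prop :=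
  (fun e => (p e : ℤ)) ∈ AddSubgroup.closure
    {x : E → ℤ | ∃ C, G.IsCircuit C ∧ x = fun e => if e ∈ C then 1 else 0}

/-- `p` is a nonnegative real combination of circuits. -/
def InCone (G : MGraph V E) (p : E → ℕ) : Prop :=
  ∃ w : Finset E → ℝ, (∀ C, 0 ≤ w C) ∧ (∀ C, ¬ G.IsCircuit C → w C = 0) ∧
    ∀ e, (p e : ℝ) = ∑ C : Finset E, w C * (if e ∈ C then 1 else 0)

/-- The spanning subgraph with edge set `H` is `K`-edge-connected: every nonempty proper set of
vertices is left by at least `K` edges of `H`. -/
def SpanningEC (G : MGraph V E) (K : ℕ) (H : Finset E) : Prop :=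
  ∀ B : Finset V, B.Nonempty → B ≠ Finset.univ →
    K ≤ (H.filter (fun e => (∃ x ∈ G.ends e, x ∈ B) ∧ ∃ x ∈ G.ends e, x ∉ B)).card

/-- Let `G` be a finite graph and let `p` be a weighting of its edges by natural numbers, even or
not (even in part 4).

1. If `G` is 3-edge-connected, then its edges can be coloured with seven colours such that the
   deletion of the edges of any one colour leaves a 2-edge-connected graph.
2. Let `k ≥ 17`, or let `k ≥ 9` be odd. If `12 k ≤ p ≤ 16 k + 1` everywhere, then `(G, p)` has a
   circuit cover if and only if `p` is in the cone and in the lattice of the circuits: the integers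
   from `12 k` to `16 k + 1` form a good range.
3. If `3 p(e) + 40 ≤ 4 p(f)` for any two edges `e`, `f`, then `(G, p)` has a circuit cover if and
   only if `p` is in the cone and in the lattice.
4. If `p` is even and positive and `6 p(e) ≤ 7 p(f)` for any two edges `e`, `f`, then `(G, p)` has a
   circuit cover if and only if `p` is in the cone and in the lattice.
5. Let `H` be a spanning 3-edge-connected subgraph, and let `k ≥ 17`, or let `k ≥ 9` be odd. If `p` is
   in the lattice, `12 k ≤ p ≤ 16 k + 1` on `H` and `p ≤ 28 k + 1` elsewhere, then `(G, p)` has a
   circuit cover. -/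
theorem result (V E : Type) [Fintype V] [DecidableEq V] [Fintype E] [DecidableEq E]
    (G : MGraph V E) (p : E → ℕ) :
    (SpanningEC G 3 Finset.univ →
      ∃ col : E → Fin 7, ∀ i, SpanningEC G 2 (Finset.univ.filter (fun e => col e ≠ i))) ∧
    (∀ k : ℕ, (17 ≤ k ∨ (9 ≤ k ∧ k % 2 = 1)) → (∀ e, 12 * k ≤ p e ∧ p e ≤ 16 * k + 1) →
      (Cover G p ↔ InCone G p ∧ InLattice G p)) ∧
    ((∀ e f, 3 * p e + 40 ≤ 4 * p f) → (Cover G p ↔ InCone G p ∧ InLattice G p)) ∧
    ((∀ e, Even (p e) ∧ 0 < p e) → (∀ e f, 6 * p e ≤ 7 * p f) →
      (Cover G p ↔ InCone G p ∧ InLattice G p)) ∧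
    (∀ (H : Finset E) (k : ℕ), SpanningEC G 3 H → (17 ≤ k ∨ (9 ≤ k ∧ k % 2 = 1)) →
      (∀ e ∈ H, 12 * k ≤ p e ∧ p e ≤ 16 * k + 1) → (∀ e, e ∉ H → p e ≤ 28 * k + 1) →
      InLattice G p → Cover G p) := by
  refine ⟨?_, ?_, ?_, ?_, ?_⟩
  · exact Pool.Agent.H91S.seven_classes G
  · intro k hk h1
    exact Pool.Agent.H91S.good_range7 Pool.Agent.H91S.hasCol_seven G k hk p h1
  · intro h1
    exact Pool.Agent.H91S.four_thirds Pool.Agent.H91S.hasCol_seven G p h1
  · intro h1 h2
    exact Pool.Agent.H91S.seven_sixths Pool.Agent.H91S.hasCol_seven G p (fun e => (h1 e).1)
      (fun e => (h1 e).2) h2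
  · intro H k hH hk h1 h2 hlat
    refine Pool.Agent.H91S.three_span7 Pool.Agent.H91S.hasCol_seven G H k hk p hH
      (fun e he => ?_) (fun e he => ?_) hlat
    · have := h1 e he
      omega
    · have h3 := h2 e he
      omega

end Pool.Agent.Results.MP_20b97f_co.SevenColours
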