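import Pool.Agent.Helper87S.Main

set_option autoImplicit false

/-!
# MP_20b97f_co: sharp versions of the results on weightings constant on a spanning subgraph and on
weightings of bounded ratio

The starting results have `p ≤ 2 c - 10` off a spanning two-edge-connected subgraph on which `p = c`
(the cone allows `2 c`), and the ratios `9 / 7` and `(3 K - 2) / (K + 2)` with additive losses `91`
and `12 K ^ 2`. The losses disappear here, for weights above an absolute constant. The new tool is
the reflection of a family of exactly `2 c` even subgraphs, which covers the edges of a connected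
spanning subgraph `c` times each, in an even subgraph: it turns the multiplicity `v` of a further
edge into `2 c - v`. Families with few members are obtained from seven even subgraphs covering every
edge four times (eight-flows) and eight even subgraphs covering every edge twice (the circuit double
cover theorem of the starting library).
-/

namespace Pool.Agent.Results.MP_20b97f_co.SharpSpanning

open Pool.Agent.H126R2.CDC (MGraph)

variable {V E : Type} [Fintype V] [DecidableEq V] [Fintype E] [DecidableEq E]

/-- `(G, p)` has a circuit cover: a finite family (multiset) of circuits such that every edge `e`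
lies in exactly `p e` members. -/
def Cover (G : MGraph V E) (p : E → ℕ) : Prop :=
  ∃ F : Multiset (Finset E), (∀ C ∈ F, G.IsCircuit C) ∧ ∀ e, F.countP (fun C => e ∈ C) = p e

/-- `p` is an integer combination of circuits. -/
def InLattice (G : MGraph V E) (p : E → ℕ) : Prop :=
  (fun e => (p e : ℤ)) ∈ AddSubgroup.closure
    {x : E → ℤ | ∃ C, G.IsCircuit C ∧ x = fun e => if e ∈ C then 1 else 0}

/-- `p` is a nonnegative real combination of circuits. -/
def InCone (G : MGraph V E) (p : E → ℕ) : Prop :=
  ∃ w : Finset E → ℝ, (∀ C, 0 ≤ w C) ∧ (∀ C, ¬ G.IsCircuit C → w C = 0) ∧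
    ∀ e, (p e : ℝ) = ∑ C : Finset E, w C * (if e ∈ C then 1 else 0)

/-- The spanning subgraph with edge set `H` is `K`-edge-connected: every nonempty proper set of
vertices is left by at least `K` edges of `H`. -/
def SpanningEC (G : MGraph V E) (K : ℕ) (H : Finset E) : Prop :=
  ∀ B : Finset V, B.Nonempty → B ≠ Finset.univ →
    K ≤ (H.filter (fun e => (∃ x ∈ G.ends e, x ∈ B) ∧ ∃ x ∈ G.ends e, x ∉ B)).card

/-- Let `G` be a finite graph and let `p` be a weighting of its edges by natural numbers, even or
not.

1. Let `H_1, ..., H_N` be spanning two-edge-connected subgraphs and `k_1, ..., k_N` integers which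
   are at least `17`, or odd and at least `9`. If `p` is in the lattice of the circuits and every
   `⌊p(e) / 2⌋` is at least the sum of the `k_i` with `e ∈ H_i`, and at most this sum plus twice the
   sum of the other `k_i`, then `(G, p)` has a circuit cover.
2. If `p` is in the lattice, `p = c` on a spanning two-edge-connected subgraph and `p ≤ 2 c`
   elsewhere (`p ≤ 2 c - 1` if `c` is odd), where `c ≥ 34`, or `c ≥ 18` and `c` is `2` or `3` modulo
   `4`, then `(G, p)` has a circuit cover.
3. Let `K ≥ 4`, let `H` be a spanning `K`-edge-connected subgraph and `k ≥ 17`, or `k ≥ 9` odd. If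
   `p` is in the lattice, `2 (K + 2) k ≤ p ≤ 2 (3 K - 2) k + 1` on `H` and `p ≤ 8 K k + 1` elsewhere,
   then `(G, p)` has a circuit cover.
4. The same for a spanning three-edge-connected subgraph `H` with `14 k ≤ p ≤ 18 k + 1` on `H` and
   `p ≤ 32 k + 1` elsewhere.
5. If `14 k ≤ p ≤ 18 k + 1` everywhere, where `k ≥ 17`, or `k ≥ 9` is odd, then `(G, p)` has a
   circuit cover if and only if `p` is in the cone and in the lattice of the circuits: the integers
   from `14 k` to `18 k + 1` form a good range. -/
theorem result (V E : Type) [Fintype V] [DecidableEq V] [Fintype E] [DecidableEq E]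
    (G : MGraph V E) (p : E → ℕ) :
    (∀ (N : ℕ) (H : Fin N → Finset E) (k : Fin N → ℕ), (∀ i, SpanningEC G 2 (H i)) →
      (∀ i, 17 ≤ k i ∨ (9 ≤ k i ∧ k i % 2 = 1)) →
      (∀ e, ∑ i, (if e ∈ H i then k i else 0) ≤ p e / 2 ∧
        p e / 2 ≤ ∑ i, (if e ∈ H i then k i else 2 * k i)) →
      InLattice G p → Cover G p) ∧
    (∀ (H : Finset E) (c : ℕ), SpanningEC G 2 H → (34 ≤ c ∨ (18 ≤ c ∧ 2 ≤ c % 4)) →
      (∀ e ∈ H, p e = c) → (∀ e, e ∉ H → p e + c % 2 ≤ 2 * c) → InLattice G p → Cover G p) ∧
    (∀ (H : Finset E) (K k : ℕ), 4 ≤ K → SpanningEC G K H → (17 ≤ k ∨ (9 ≤ k ∧ k % 2 = 1)) →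
      (∀ e ∈ H, 2 * ((K + 2) * k) ≤ p e ∧ p e ≤ 2 * ((3 * K - 2) * k) + 1) →
      (∀ e, e ∉ H → p e ≤ 8 * K * k + 1) → InLattice G p → Cover G p) ∧
    (∀ (H : Finset E) (k : ℕ), SpanningEC G 3 H → (17 ≤ k ∨ (9 ≤ k ∧ k % 2 = 1)) →
      (∀ e ∈ H, 14 * k ≤ p e ∧ p e ≤ 18 * k + 1) → (∀ e, e ∉ H → p e ≤ 32 * k + 1) →
      InLattice G p → Cover G p) ∧
    (∀ k : ℕ, (17 ≤ k ∨ (9 ≤ k ∧ k % 2 = 1)) → (∀ e, 14 * k ≤ p e ∧ p e ≤ 18 * k + 1) →
      (Cover G p ↔ InCone G p ∧ InLattice G p)) := by
  refine ⟨?_, ?_, ?_, ?_, ?_⟩
  · intro N H k hH hk h hlat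
    exact Pool.Agent.Helper87S.family_cover G H k p hH hk (fun e => (h e).1) (fun e => (h e).2) hlat
  · intro H c hH hc hp hp2 hlat
    have h1 : Pool.Agent.Helper87S.Big (c / 2) := by
      unfold Pool.Agent.Helper87S.Big
      omega
    refine Pool.Agent.Helper87S.family_cover G (ι := Unit) (fun _ => H) (fun _ => c / 2) p
      (fun _ => hH) (fun _ => h1) (fun e => ?_) (fun e => ?_) hlat
    · rw [Fintype.sum_unique]
      by_cases he : e ∈ H
      · rw [if_pos he, hp e he]
      · rw [if_neg he]
        exact Nat.zero_le _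
    · rw [Fintype.sum_unique]
      by_cases he : e ∈ H
      · rw [if_pos he, hp e he]
      · rw [if_neg he]
        have := hp2 e he
        omega
  · intro H K k hK hH hk h1 h2 hlat
    refine Pool.Agent.Helper87S.large_span G H K k hK hk p hH (fun e he => ?_) (fun e he => ?_) hlat
    · have := h1 e he
      omega
    · have h3 := h2 e he
      have h4 : 8 * K * k = 2 * (4 * K * k) := by ring
      omega
  · intro H k hH hk h1 h2 hlat
    refine Pool.Agent.Helper87S.three_span G H k hk p hH (fun e he => ?_) (fun e he => ?_) hlat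
    · have := h1 e he
      omega
    · have h3 := h2 e he
      omega
  · intro k hk h1
    exact Pool.Agent.Helper87S.good_range G k hk p h1

end Pool.Agent.Results.MP_20b97f_co.SharpSpanning
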